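import Pool.Agent.Helper21.AW.All

/-!
# The winding of `2k` arms of critical bond percolation on `Z^2`

Critical bond percolation on the square lattice `Z^2` modulo the translation by `(n+1, n+1)`: the
bi-infinite cylinder of circumference `N = 2n+2` times half a diagonal of the unit square (sites
`(j,t)`, `j` modulo `N`, primal for `j+t` even and dual for `j+t` odd; the plaquettes of the row `t`
are in the state `true` with probability `p t`; `p t = 1/2` is the isotropic critical point). Cut the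
cylinder at the level `0` along the slit `(0,0), …, (k,0)` (for `k = 1` the slit is one medial edge
and nothing is cut, for `k = 2` it is one vertex).

* `Arms k ω`: `2k` alternating arms start at the slit. Around the slit there are `2k` sectors (the
  ends of the slit and the two sides of its interior points); they are not connected with each other,
  and each of them is connected, in the universal cover, with a sector of another translate of the
  slit. For `k = 1`: the interface through the medial edge `v(0,0)` winds around the cylinder.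
* `Spiral k ω j`: in addition, the sectors, numbered counterclockwise through all turns around the
  slit, which lead to the translate of the slit on the right are `j, …, j+k`. So `j - k/2` is the
  number of steps of `2π/(2k)` by which the arms wind around the slit, clockwise; their winding
  angle, clockwise, is `(π/k)(j - k/2)`.

The law of `j` is explicit and does not depend on the `p t`:

  `E [w^j ; 2k arms] = w^{k-n-1} D(w) / A_HT(N)²`,
  `D(w) = det (δ_ij + w binom(2k+i+j, j))_{0 ≤ i,j < 2n+2-k}`.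

Given that there are `2k` arms, `j + n + 1 - k` is a sum of `2n+2-k` independent Bernoulli variables
of total variance `(3/(2π²)) log N + O(1)`: the winding angle has mean zero and variance
`(6/(2k)²) log N + O(1) = (κ/l²) log N + O(1)` with `κ = 6` and `l = 2k` arms (the formula of
Duplantier and Saleur), and it satisfies the central limit theorem.
-/

namespace Pool.Agent.Results.MP_fe58d8_pr.ArmWinding

open MeasureTheory ProbabilityTheory Filter Topology Pool.Agent.Helper21.EV
  Pool.Agent.Helper21.AW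

theorem result :
    -- the exact law
    (∀ (n k : ℕ) (p : ℤ → unitInterval) (ε : ℝ), 1 ≤ k → k ≤ 2 * n + 2 → 0 < ε →
      (∀ t, ε ≤ (p t : ℝ) ∧ (p t : ℝ) ≤ 1 - ε) →
      (∀ᵐ ω ∂(coins (2 * n + 1) p), Arms k ω → ∃! j, Spiral k ω j) ∧
      ((coins (2 * n + 1) p).real {ω | Arms k ω} : ℂ) =
        armDet (2 * n + 2 - k) (2 * k) 1 / (ahtE (n + 1) ^ 2 : ℝ) ∧
      (∀ j : ℤ, j < (k : ℤ) - n - 1 ∨ (n : ℤ) + 1 < j →
        (coins (2 * n + 1) p).real {ω | Spiral k ω j} = 0) ∧
      ∀ w : ℂ, w ≠ 0 →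
        ∑ j ∈ Finset.Icc ((k : ℤ) - n - 1) (n + 1),
          ((coins (2 * n + 1) p).real {ω | Spiral k ω j} : ℂ) * w ^ j =
          w ^ ((k : ℤ) - n - 1) * armDet (2 * n + 2 - k) (2 * k) w / (ahtE (n + 1) ^ 2 : ℝ)) ∧
    -- independent Bernoulli variables
    (∀ k : ℕ, 1 ≤ k → ∃ a : (n : ℕ) → Fin (2 * n + 2 - k) → ℝ,
      (∀ n i, 0 < a n i ∧ a n i < 1) ∧
      (∀ n i, a n (Fin.rev i) = 1 - a n i) ∧
      (∀ (n : ℕ) (w : ℂ), armDet (2 * n + 2 - k) (2 * k) w =
        armDet (2 * n + 2 - k) (2 * k) 1 * ∏ i, (1 - (a n i : ℂ) + (a n i : ℂ) * w)) ∧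
      (∀ n : ℕ, armDet (2 * n + 2 - k) (2 * k) 1 ≠ 0) ∧
      ∃ C : ℝ, ∀ n : ℕ, k ≤ 2 * n + 2 →
        |∑ i, a n i * (1 - a n i) - 3 / (2 * Real.pi ^ 2) * Real.log (2 * n + 2)| ≤ C) ∧
    -- central limit theorem
    ∀ (k : ℕ) (p : ℕ → ℤ → unitInterval), 1 ≤ k →
      (∀ n, ∃ ε : ℝ, 0 < ε ∧ ∀ t, ε ≤ (p n t : ℝ) ∧ (p n t : ℝ) ≤ 1 - ε) →
      ∀ x : ℝ, Tendsto (fun n : ℕ => (coins (2 * n + 1) (p n)).real {ω | ∃ j : ℤ, Spiral k ω j ∧
          Real.pi / k * ((j : ℝ) - k / 2) ≤
            x * Real.sqrt (3 / (2 * k ^ 2) * Real.log (2 * n + 2))} /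
          (coins (2 * n + 1) (p n)).real {ω | Arms k ω}) atTop
        (𝓝 ((gaussianReal 0 1).real (Set.Iic x))) := by
  have hZ : ∀ n : ℕ, (ahtE (n + 1) ^ 2 : ℝ) = ZZ n := fun n => by rw [ZZ_eq, t_NORM]
  refine ⟨?_, ?_, ?_⟩
  · intro n k p ε hk hk2 h0 h1
    have hu := a_unique hk hk2 p ε ⟨h0, h1⟩
    obtain ⟨h3, h4⟩ := a_law hk hk2 p ε ⟨h0, h1⟩
    refine ⟨?_, ?_, h3, fun w hw => ?_⟩
    · filter_upwards [hu] with ω hω ha
      obtain ⟨j, hj⟩ := hω.2 ha
      exact ⟨j, hj, fun j' hj' => hω.1 j' j hj' hj⟩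
    · rw [hZ]
      exact a_arms hk hk2 p ε ⟨h0, h1⟩
    · rw [h4 w hw, pal t_L4 hk2 w hw, hZ, armDet_eq]
      ring
  · intro k hk
    obtain ⟨a, h1, h2, h3, h4⟩ := bern a_L3 t_L4 k hk
    exact ⟨a, h1, h2, h3, fun n => Dl_one_ne t_L4 _ _, h4⟩
  · intro k p hk hp x
    choose ε hε using hp
    exact clt a_CLT t_L4 k hk x p (fun n hn => a_unique hk hn (p n) (ε n) (hε n))
      (fun n hn => (a_law hk hn (p n) (ε n) (hε n)).1)
      (fun n hn => (a_law hk hn (p n) (ε n) (hε n)).2)
      (fun n hn => a_arms hk hn (p n) (ε n) (hε n))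

end Pool.Agent.Results.MP_fe58d8_pr.ArmWinding
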