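import Pool.Agent.Helper21.LK.IsoLim
import Pool.Agent.Helper21.JL.Fin

/-!
# The winding of the interface of critical bond percolation in layered environments

Take critical bond percolation on the square lattice rotated by 45 degrees, on the cylinder of odd
circumference `N = 2n+1` (the circumference is `N` times half a diagonal of the unit square) with
`M` rows of tiles.  The tiles are independent, and a tile of the row `t` is in the state `true` with
probability `p t`; the numbers `p t` are arbitrary (`p t = 1/2` is the isotropic critical point).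
Exactly one interface connects the bottom and the top; `X` is its horizontal displacement, and
`lev n c r` is the displacement of the interface of the first `r` rows.

There are numbers `μ n p` (drift of a row with the bias `p`) and `v n p` (variance of such a row), and
an absolute constant `K`, such that

(1) embed the tiles of a row as rhombi with the bottom side `(1, 0)` and the left side
`(cos θ, sin θ)`: the row has the height `sin θ` and the horizontal shift `cos θ`, and the critical
bias is `bias θ`.  Then the drift of the lattice displacement cancels the shift,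
`μ n (bias θ) = -cos θ` up to `K / (N sin² θ)`, and
`2 π v n (bias θ) / N = 6 sin θ` up to `K / (N sin θ)`;

(2) in every layered environment the mean of the displacement of `M` rows is `∑ μ n (p s)` up to
`K N²`, its standard deviation is `√(∑ v n (p s))` up to `K N²`, the oscillation of the centred
displacement over any block of rows has exponential tails on the scale `√(∑ v n (p s)) + N²` (sum
over the block), and the finite dimensional distributions of the centred displacement are those
of Brownian motion with the clock `∑ v n (p s)`, with an explicit bound of the distance of the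
characteristic functions, small as soon as `∑ v n (p s)` is large compared to `N⁴`;

(3) for all angles in `[δ, π - δ]`, which may depend on the row and on `N`, and all `M = M(N)` with
`M / N³ → ∞`, in the isoradial embedding the drift is small compared to the height `∑ sin θ`, the
variance is asymptotically `6` times the clock `N ∑ sin θ / (2π)`, and the finite dimensional
distributions of the centred displacement, divided by the root of the clock, are asymptotically
those of `√6` times Brownian motion.
-/

namespace Pool.Agent.Results.MP_fe58d8_pr.LayeredBrownian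

open H906K Pool.Agent.Helper21.LK Filter Topology

theorem result :
    (∀ (n M : ℕ) (c : Fin M → Fin (2 * n + 1) → Bool), ∃! X : ℤ, End n M c X) ∧
    ∃ (μ v : ℕ → ℝ → ℝ) (K : ℝ), 0 < K ∧
    (∀ n : ℕ, 1 ≤ n → ∀ θ : ℝ, 0 < θ → θ < Real.pi →
      |μ n (bias θ) + Real.cos θ| ≤ K / ((2 * n + 1) * Real.sin θ ^ 2) ∧
      |2 * Real.pi * v n (bias θ) / (2 * n + 1) - 6 * Real.sin θ| ≤
        K / ((2 * n + 1) * Real.sin θ)) ∧
    (∀ n : ℕ, 1 ≤ n → ∀ p : ℕ → ℝ, (∀ s, 0 ≤ p s ∧ p s ≤ 1) → (∀ s, 0 ≤ v n (p s)) ∧ ∀ M : ℕ,
      |meanX n M p - ∑ s ∈ Finset.range M, μ n (p s)| ≤ K * (2 * n + 1) ^ 2 ∧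
      |Real.sqrt (varX n M p) - Real.sqrt (∑ s ∈ Finset.range M, v n (p s))| ≤
        K * (2 * n + 1) ^ 2 ∧
      (∀ s s' : ℕ, s ≤ s' → s' ≤ M → ∀ x : ℝ, 0 ≤ x →
        pr n M p (fun c => ∃ r, s ≤ r ∧ r ≤ s' ∧
          x * (Real.sqrt (∑ r ∈ Finset.Ico s s', v n (p r)) + (2 * n + 1) ^ 2) ≤
            |dev n p c r - dev n p c s|) ≤ K * Real.exp (-(x / K))) ∧
      ∀ (J : ℕ) (m : ℕ → ℕ), Monotone m → m J ≤ M → ∀ (l : ℕ → ℝ) (L : ℝ),
        (∀ j < J, |l j| ≤ L) → 0 < ∑ s ∈ Finset.range M, v n (p s) →
        ‖cf n M p (fun c => ∑ j ∈ Finset.range J, l j *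
            (dev n p c (m (j + 1)) - dev n p c (m j)) /
              Real.sqrt (∑ s ∈ Finset.range M, v n (p s))) -
          Complex.exp (-((∑ j ∈ Finset.range J, l j ^ 2 *
            (∑ s ∈ Finset.Ico (m j) (m (j + 1)), v n (p s)) /
              (2 * ∑ s ∈ Finset.range M, v n (p s)) : ℝ) : ℂ))‖ ≤
        K * J * (1 + L) ^ 4 *
          Real.sqrt ((2 * n + 1) ^ 2 / Real.sqrt (∑ s ∈ Finset.range M, v n (p s)))) ∧
    (∀ δ : ℝ, 0 < δ → ∀ θ : ℕ → ℕ → ℝ, (∀ n t, δ ≤ θ n t ∧ θ n t ≤ Real.pi - δ) →
      ∀ M : ℕ → ℕ, Tendsto (fun n : ℕ => (M n : ℝ) / (n : ℝ) ^ 3) atTop atTop →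
      Tendsto (fun n => (meanX n (M n) (fun t => bias (θ n t)) +
        ∑ t ∈ Finset.range (M n), Real.cos (θ n t)) /
          ∑ t ∈ Finset.range (M n), Real.sin (θ n t)) atTop (𝓝 0) ∧
      Tendsto (fun n => varX n (M n) (fun t => bias (θ n t)) / clock n (M n) (θ n))
        atTop (𝓝 6) ∧
      ∀ (J : ℕ) (l : ℕ → ℝ) (m : ℕ → ℕ → ℕ), (∀ n, Monotone (m n)) → (∀ n, m n J ≤ M n) →
        Tendsto (fun n => cf n (M n) (fun t => bias (θ n t)) (fun c =>
          ∑ j ∈ Finset.range J, l j * (dev n (fun t => bias (θ n t)) c (m n (j + 1)) -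
            dev n (fun t => bias (θ n t)) c (m n j)) / Real.sqrt (clock n (M n) (θ n))) -
          Complex.exp (-((∑ j ∈ Finset.range J, 3 * l j ^ 2 *
            (clock n (m n (j + 1)) (θ n) - clock n (m n j) (θ n)) /
              clock n (M n) (θ n) : ℝ) : ℂ))) atTop (𝓝 0)) :=
  ⟨final.1, joint⟩

end Pool.Agent.Results.MP_fe58d8_pr.LayeredBrownian
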