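import Pool.Agent.Helper21.AW.All
import Pool.Agent.Helper21.AW.T_LDP

/-!
# The winding spectrum of `2k` arms of critical bond percolation on `Z^2`

Critical bond percolation on the square lattice `Z^2` modulo the translation by `(n+1, n+1)`: the
bi-infinite cylinder of circumference `N = 2n+2` times half a diagonal of the unit square (sites
`(j,t)`, `j` modulo `N`, primal for `j+t` even and dual for `j+t` odd; the plaquettes of the row `t`
are in the state `true` with probability `p t`; `p t = 1/2` is the isotropic critical point). Cut the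
cylinder at the level `0` along the slit `(0,0), …, (k,0)` (for `k = 1` the slit is one medial edge
and nothing is cut, for `k = 2` it is one vertex).

* `Arms k ω`: `2k` alternating arms start at the slit. Around the slit there are `2k` sectors (the
  ends of the slit and the two sides of its interior points); they are not connected with each other,
  and each of them is connected, in the universal cover, with a sector of another translate of the
  slit. For `k = 1`: the interface through the medial edge `v(0,0)` winds around the cylinder.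
* `Spiral k ω j`: in addition, the sectors, numbered counterclockwise through all turns around the
  slit, which lead to the translate of the slit on the right are `j, …, j+k`. So `j - k/2` is the
  number of steps of `2π/(2k)` by which the arms wind around the slit, clockwise; their winding
  angle, clockwise, is `θ = (π/k)(j - k/2)`.

The theorem: the exponents of all exponential moments of the winding, and the large deviations on the
scale `log N`: the arms spiral at the rate `α` (`θ` is about `α log N`) with the probability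
`N^{-(4k²-1)/12 - (k²/3) α² + o(1)}`, uniformly in the biases. With `l = 2k` arms and the exponent
`x_l = (l²-1)/12` this is `N^{-x_l - (l²/12) α²}`: the formula of Duplantier and Binder
`(1+α²)(2-x_l) - b α²`, `b = (25-c)/12 = 25/12`, for the dimension of the points from which `l` arms
spiral at the rate `α`, at the central charge `c = 0` of percolation.
-/

namespace Pool.Agent.Results.MP_fe58d8_pr.SpiralSpectrum

open MeasureTheory ProbabilityTheory Filter Topology Pool.Agent.Helper21.EV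
  Pool.Agent.Helper21.AW

theorem result :
    -- exponential moments
    (∀ (k : ℕ) (t : ℝ), 1 ≤ k → ∃ c C : ℝ, 0 < c ∧ 0 < C ∧
      ∀ (n : ℕ) (p : ℤ → unitInterval) (ε : ℝ), k ≤ n + 1 → 0 < ε →
      (∀ t, ε ≤ (p t : ℝ) ∧ (p t : ℝ) ≤ 1 - ε) →
      c * (2 * (n : ℝ) + 2) ^ (-((4 * (k : ℝ) ^ 2 - 1) / 12) + 3 * t ^ 2 / (4 * Real.pi ^ 2)) ≤
        ∑ j ∈ Finset.Icc ((k : ℤ) - n - 1) (n + 1),
          (coins (2 * n + 1) p).real {ω | Spiral k ω j} * Real.exp (t * (j - k / 2)) ∧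
      ∑ j ∈ Finset.Icc ((k : ℤ) - n - 1) (n + 1),
          (coins (2 * n + 1) p).real {ω | Spiral k ω j} * Real.exp (t * (j - k / 2)) ≤
        C * (2 * (n : ℝ) + 2) ^ (-((4 * (k : ℝ) ^ 2 - 1) / 12) + 3 * t ^ 2 / (4 * Real.pi ^ 2))) ∧
    -- large deviations of the winding angle
    ∀ (k : ℕ) (a b δ : ℝ), 1 ≤ k → a < b → 0 < δ → ∃ n0 : ℕ,
      ∀ (n : ℕ) (p : ℤ → unitInterval) (ε : ℝ), n0 ≤ n → 0 < ε →
      (∀ t, ε ≤ (p t : ℝ) ∧ (p t : ℝ) ≤ 1 - ε) →
      (2 * (n : ℝ) + 2) ^ (-((4 * (k : ℝ) ^ 2 - 1) / 12 +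
          (k : ℝ) ^ 2 / 3 * (max a 0 ^ 2 + min b 0 ^ 2)) - δ) ≤
        (coins (2 * n + 1) p).real {ω | ∃ j : ℤ, Spiral k ω j ∧
          a * Real.log (2 * n + 2) ≤ Real.pi / k * ((j : ℝ) - k / 2) ∧
          Real.pi / k * ((j : ℝ) - k / 2) ≤ b * Real.log (2 * n + 2)} ∧
      (coins (2 * n + 1) p).real {ω | ∃ j : ℤ, Spiral k ω j ∧
          a * Real.log (2 * n + 2) ≤ Real.pi / k * ((j : ℝ) - k / 2) ∧
          Real.pi / k * ((j : ℝ) - k / 2) ≤ b * Real.log (2 * n + 2)} ≤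
        (2 * (n : ℝ) + 2) ^ (-((4 * (k : ℝ) ^ 2 - 1) / 12 +
          (k : ℝ) ^ 2 / 3 * (max a 0 ^ 2 + min b 0 ^ 2)) + δ) := by
  classical
  have hmom : ∀ (k : ℕ) (t : ℝ), 1 ≤ k → ∃ c C : ℝ, 0 < c ∧ 0 < C ∧
      ∀ (n : ℕ) (p : ℤ → unitInterval) (ε : ℝ), k ≤ n + 1 → 0 < ε →
      (∀ t, ε ≤ (p t : ℝ) ∧ (p t : ℝ) ≤ 1 - ε) →
      c * (2 * (n : ℝ) + 2) ^ (-((4 * (k : ℝ) ^ 2 - 1) / 12) + 3 * t ^ 2 / (4 * Real.pi ^ 2)) ≤
        ∑ j ∈ Finset.Icc ((k : ℤ) - n - 1) (n + 1),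
          (coins (2 * n + 1) p).real {ω | Spiral k ω j} * Real.exp (t * (j - k / 2)) ∧
      ∑ j ∈ Finset.Icc ((k : ℤ) - n - 1) (n + 1),
          (coins (2 * n + 1) p).real {ω | Spiral k ω j} * Real.exp (t * (j - k / 2)) ≤
        C * (2 * (n : ℝ) + 2) ^ (-((4 * (k : ℝ) ^ 2 - 1) / 12) + 3 * t ^ 2 / (4 * Real.pi ^ 2)) := by
    intro k t hk
    obtain ⟨c, C, h1, h2, h3⟩ := expm a_L2 t_L4 k hk t
    refine ⟨c, C, h1, h2, fun n p ε hn h0 hp => ?_⟩
    exact h3 n hn _ (a_law hk (by omega) p ε ⟨h0, hp⟩).2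
  refine ⟨hmom, ?_⟩
  intro k a b δ hk hab hδ
  have hk0 : (0 : ℝ) < k := by exact_mod_cast hk
  have hπ := Real.pi_pos
  have hγ : (0 : ℝ) < 3 / (4 * Real.pi ^ 2) := by positivity
  have hs : (0 : ℝ) < k / Real.pi := by positivity
  obtain ⟨N0, hN0⟩ := t_LDP (k / 2) ((4 * (k : ℝ) ^ 2 - 1) / 12) (3 / (4 * Real.pi ^ 2)) hγ
    {x : ℕ × (ℤ → unitInterval) // k ≤ x.1 + 1 ∧ ∃ ε : ℝ, 0 < ε ∧
      ∀ t, ε ≤ (x.2 t : ℝ) ∧ (x.2 t : ℝ) ≤ 1 - ε}
    (fun x => Finset.Icc ((k : ℤ) - x.1.1 - 1) (x.1.1 + 1))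
    (fun x j => (coins (2 * x.1.1 + 1) x.1.2).real {ω | Spiral k ω j})
    (fun x => 2 * (x.1.1 : ℝ) + 2) (fun x => by
      have : (0 : ℝ) ≤ x.1.1 := Nat.cast_nonneg _
      linarith) (fun x j => measureReal_nonneg) (fun t => by
      obtain ⟨c, C, h1, h2, h3⟩ := hmom k t hk
      refine ⟨c, C, h1, h2, fun x => ?_⟩
      obtain ⟨h4, ε, h5, h6⟩ := x.2
      have h7 := h3 x.1.1 x.1.2 ε h4 h5 h6
      have e : (3 / (4 * Real.pi ^ 2) * t ^ 2 : ℝ) = 3 * t ^ 2 / (4 * Real.pi ^ 2) := by ring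
      rw [e]
      exact h7) (k / Real.pi * a) (k / Real.pi * b) δ (mul_lt_mul_of_pos_left hab hs) hδ
  obtain ⟨n1, hn1⟩ := exists_nat_ge N0
  refine ⟨max n1 k, fun n p ε hn h0 hp => ?_⟩
  have hn2 : n1 ≤ n := le_trans (le_max_left _ _) hn
  have hn3 : k ≤ n := le_trans (le_max_right _ _) hn
  have hN : N0 ≤ 2 * (n : ℝ) + 2 := by
    have : (n1 : ℝ) ≤ n := by exact_mod_cast hn2
    have h8 : (0 : ℝ) ≤ n := Nat.cast_nonneg _
    linarith
  have h9 := hN0 ⟨(n, p), by omega, ε, h0, hp⟩ hN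
  have hk2 : k ≤ 2 * n + 2 := by omega
  have e1 : (max (k / Real.pi * a) 0 ^ 2 + min (k / Real.pi * b) 0 ^ 2) /
      (4 * (3 / (4 * Real.pi ^ 2))) = (k : ℝ) ^ 2 / 3 * (max a 0 ^ 2 + min b 0 ^ 2) := by
    have e2 : max (k / Real.pi * a) 0 = k / Real.pi * max a 0 := by
      rw [mul_max_of_nonneg _ _ hs.le, mul_zero]
    have e3 : min (k / Real.pi * b) 0 = k / Real.pi * min b 0 := by
      rw [mul_min_of_nonneg _ _ hs.le, mul_zero]
    rw [e2, e3]
    field_simp
  have e4 : (coins (2 * n + 1) p).real {ω | ∃ j : ℤ, Spiral k ω j ∧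
          (a * Real.log (2 * n + 2) ≤ Real.pi / k * ((j : ℝ) - k / 2) ∧
          Real.pi / k * ((j : ℝ) - k / 2) ≤ b * Real.log (2 * n + 2))} =
      ∑ j ∈ Finset.Icc ((k : ℤ) - n - 1) (n + 1),
        if (k / Real.pi * a) * Real.log (2 * (n : ℝ) + 2) ≤ (j : ℝ) - k / 2 ∧
          (j : ℝ) - k / 2 ≤ (k / Real.pi * b) * Real.log (2 * (n : ℝ) + 2)
        then (coins (2 * n + 1) p).real {ω | Spiral k ω j} else 0 := by
    rw [prob_sum p (a_unique hk hk2 p ε ⟨h0, hp⟩) (a_law hk hk2 p ε ⟨h0, hp⟩).1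
      (fun j : ℤ => a * Real.log (2 * n + 2) ≤ Real.pi / k * ((j : ℝ) - k / 2) ∧
          Real.pi / k * ((j : ℝ) - k / 2) ≤ b * Real.log (2 * n + 2))]
    refine Finset.sum_congr rfl fun j _ => ?_
    have h10 : ∀ y z : ℝ, y ≤ Real.pi / k * z ↔ k / Real.pi * y ≤ z := by
      intro y z
      rw [div_mul_eq_mul_div, le_div_iff₀ hk0, div_mul_eq_mul_div, div_le_iff₀ hπ]
      constructor <;> intro h <;> linarith
    have h11 : ∀ y z : ℝ, Real.pi / k * z ≤ y ↔ z ≤ k / Real.pi * y := by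
      intro y z
      rw [div_mul_eq_mul_div, div_le_iff₀ hk0, div_mul_eq_mul_div, le_div_iff₀ hπ]
      constructor <;> intro h <;> linarith
    have h12 : (a * Real.log (2 * n + 2) ≤ Real.pi / k * ((j : ℝ) - k / 2) ∧
          Real.pi / k * ((j : ℝ) - k / 2) ≤ b * Real.log (2 * n + 2)) ↔
        ((k / Real.pi * a) * Real.log (2 * (n : ℝ) + 2) ≤ (j : ℝ) - k / 2 ∧
          (j : ℝ) - k / 2 ≤ (k / Real.pi * b) * Real.log (2 * (n : ℝ) + 2)) := by
      rw [h10, h11, mul_assoc, mul_assoc]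
    by_cases h : (a * Real.log (2 * n + 2) ≤ Real.pi / k * ((j : ℝ) - k / 2) ∧
          Real.pi / k * ((j : ℝ) - k / 2) ≤ b * Real.log (2 * n + 2))
    · rw [if_pos h, if_pos (h12.1 h)]
    · rw [if_neg h, if_neg (fun h' => h (h12.2 h'))]
  rw [e4, ← e1]
  convert h9 using 3

end Pool.Agent.Results.MP_fe58d8_pr.SpiralSpectrum
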