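import Pool.Agent.Helper21.WN.All

/-!
# The winding of the percolation interface around one of its points

Let `N = 2n+1`. Take critical bond percolation on the bi-infinite cylinder of odd circumference `N`
(rotated square lattice, independent plaquettes, a plaquette of the row `t` is in the state `true`
with probability `p t`; `p t = 1/2` is the isotropic critical point of `Z^2`). Almost surely exactly
one interface is infinite. Let `v` be a vertical medial edge (the edge `v 0 0`; the rows may be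
relabelled and the cylinder rotated). If `v` lies on the infinite interface, let `h` be the number of
half turns around `v` made by the part of the interface from `v` to `+∞`: the signed number of
crossings of the vertical ray which goes down from `v`, where a full crossing counts `2` and a start
along the ray counts `1` (`Wn ω h`; the counter is carried along the strand by the relation `LkW`).

The law of `h` is explicit and does not depend on the `p t`:

  `E [w^h ; v on the interface] = (A(N)/A_HT(N)^2) w^{-n} D_n(w)/D_n(1)`,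
  `D_n(w) = det (δ_ij + w binom(2+i+j, j))_{0 ≤ i,j < 2n}`.

Given that `v` is on the interface, `h + n` is distributed as a sum of `2n` independent Bernoulli
variables whose total variance is `(3/(2π^2)) log N + O(1)`, so the winding angle `π h` has variance
`(3/2) log N + O(1) = (κ/4) log N + O(1)` with `κ = 6`; `π h / ((3/2) log N)^{1/2}` converges to the
standard normal law; and `E [e^{th} ; v on the interface]` is of order
`N^{-1/4 + 3 t^2/(4π^2)}` for every real `t`.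
-/

namespace Pool.Agent.Results.MP_fe58d8_pr.WindingLaw

open MeasureTheory ProbabilityTheory Pool.Agent.Helper21.ID Pool.Agent.Helper21.WN Filter Topology

theorem result :
    -- the exact law
    (∀ (n : ℕ) (p : ℤ → unitInterval) (ε : ℝ), 0 < ε →
      (∀ t, ε ≤ (p t : ℝ) ∧ (p t : ℝ) ≤ 1 - ε) →
      (∀ᵐ ω ∂(coins n p), (∀ h, Wn ω h → (strand ω (Edg.v 0 0)).Infinite) ∧
        ((strand ω (Edg.v 0 0)).Infinite → ∃! h, Wn ω h)) ∧
      (∀ h : ℤ, (n : ℤ) < |h| → (coins n p).real {ω | Wn ω h} = 0) ∧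
      ∀ w : ℂ, w ≠ 0 →
        ∑ h ∈ Finset.Icc (-(n : ℤ)) n, ((coins n p).real {ω | Wn ω h} : ℂ) * w ^ h =
          ((asmN (2 * n + 1) / ahtN n ^ 2 : ℝ) : ℂ) *
            (w ^ (-(n : ℤ)) * windDet n w / windDet n 1)) ∧
    -- independent Bernoulli variables
    (∃ a : (n : ℕ) → Fin (2 * n) → ℝ, (∀ n i, 0 < a n i ∧ a n i < 1) ∧
      (∀ n i, a n (Fin.rev i) = 1 - a n i) ∧
      (∀ (n : ℕ) (w : ℂ), windDet n w = windDet n 1 * ∏ i, (1 - (a n i : ℂ) + (a n i : ℂ) * w)) ∧
      (∀ n, windDet n 1 ≠ 0) ∧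
      ∃ C : ℝ, ∀ n : ℕ, 1 ≤ n →
        |∑ i, a n i * (1 - a n i) - 3 / (2 * Real.pi ^ 2) * Real.log (2 * n + 1)| ≤ C) ∧
    -- exponential moments
    (∀ t : ℝ, ∃ c C : ℝ, 0 < c ∧ 0 < C ∧ ∀ (n : ℕ) (p : ℤ → unitInterval) (ε : ℝ), 1 ≤ n → 0 < ε →
      (∀ t, ε ≤ (p t : ℝ) ∧ (p t : ℝ) ≤ 1 - ε) →
      c * (2 * (n : ℝ) + 1) ^ (-(1 / 4) + 3 * t ^ 2 / (4 * Real.pi ^ 2) : ℝ) ≤
        ∑ h ∈ Finset.Icc (-(n : ℤ)) n, (coins n p).real {ω | Wn ω h} * Real.exp (t * h) ∧
      ∑ h ∈ Finset.Icc (-(n : ℤ)) n, (coins n p).real {ω | Wn ω h} * Real.exp (t * h) ≤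
        C * (2 * (n : ℝ) + 1) ^ (-(1 / 4) + 3 * t ^ 2 / (4 * Real.pi ^ 2) : ℝ)) ∧
    -- central limit theorem
    ∀ p : ℕ → ℤ → unitInterval,
      (∀ n, ∃ ε : ℝ, 0 < ε ∧ ∀ t, ε ≤ (p n t : ℝ) ∧ (p n t : ℝ) ≤ 1 - ε) →
      ∀ x : ℝ, Tendsto (fun n : ℕ => (coins n (p n)).real {ω | ∃ h : ℤ, Wn ω h ∧
          Real.pi * (h : ℝ) ≤ x * Real.sqrt (3 / 2 * Real.log (2 * n + 1))} /
          (coins n (p n)).real {ω | (strand ω (Edg.v 0 0)).Infinite}) atTop
        (𝓝 ((gaussianReal 0 1).real (Set.Iic x))) := by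
  have hpos : ∀ n : ℕ, 0 < Pool.Agent.H974R3.pval n := by
    intro n
    obtain ⟨C, h1, -, h3⟩ := pval_asymp
    have h4 := (h3 n).1
    have hn : (0 : ℝ) ≤ n := Nat.cast_nonneg n
    have h5 : (0 : ℝ) < 1 - 1 / (5 * (2 * (n : ℝ) + 1) ^ 2) := by
      have h6 : 1 / (5 * (2 * (n : ℝ) + 1) ^ 2) ≤ 1 / 5 := by
        apply one_div_le_one_div_of_le (by norm_num)
        nlinarith
      linarith
    have h7 : 0 < (2 * (n : ℝ) + 1) ^ (1 / 4 : ℝ) * Pool.Agent.H974R3.pval n :=
      lt_of_lt_of_le (mul_pos (by linarith) h5) h4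
    exact pos_of_mul_pos_right h7 (Real.rpow_nonneg (by linarith) _)
  refine ⟨?_, ?_, ?_, ?_⟩
  · intro n p ε h0 h1
    obtain ⟨h2, h3, h4⟩ := a_law n p ε ⟨h0, h1⟩
    refine ⟨h2, h3, fun w hw => ?_⟩
    rw [h4 w hw, pval_closed, windDet_eq, windDet_eq, pal n w hw]
  · obtain ⟨a, h1, h2, h3, h4⟩ := bern t_L3
    exact ⟨a, h1, h2, h3, fun n => Dl_one_ne t_L4 n, h4⟩
  · intro t
    obtain ⟨c, C, h1, h2, h3⟩ := expm a_L2 t_L4 t
    refine ⟨c, C, h1, h2, fun n p ε hn h0 hp => ?_⟩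
    exact h3 n hn _ (a_law n p ε ⟨h0, hp⟩).2.2
  · intro p hp x
    choose ε hε using hp
    refine clt a_CLT x p meas_Wn (fun n => (a_law n (p n) (ε n) (hε n)).1)
      (fun n => (a_law n (p n) (ε n) (hε n)).2.1) (fun n => (a_law n (p n) (ε n) (hε n)).2.2)
      (fun n => ?_) hpos
    exact value (ε := ε n) (hε n) (Edg.v 0 0)

end Pool.Agent.Results.MP_fe58d8_pr.WindingLaw
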